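import Pool.Agent.H21.BS.TB

/-!
# The four point function of the dual function at distinct points
-/

set_option autoImplicit false

open Finset Pool.Agent.H6.N4D Pool.Agent.H21.BS

namespace Pool.Agent.H36.BS

theorem norm_ee' (t : ℝ) : ‖ee t‖ = 1 := by
  unfold ee
  rw [Complex.norm_exp]
  simp

theorem norm_DD (q n : ℕ) : ‖DD q n‖ ≤ MD q n := by
  unfold DD MD
  refine (norm_sub_le _ _).trans ?_
  rw [norm_one]
  refine add_le_add ?_ le_rfl
  split_ifs
  · rw [Complex.norm_natCast]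
  · rw [norm_zero]

theorem MD_nonneg (q n : ℕ) : 0 ≤ MD q n := (norm_nonneg _).trans (norm_DD q n)

open Classical in
theorem pf_FPT (hEXQ : T_EXQ) (hPR4 : T_PR4) (hTUP : T_TUP) (hCR1 : T_CR1) : T_FPT := by
  intro W
  refine ⟨81 * (100 * |W| ^ 4 + 32 + 32 * (6 * |W| ^ 3)), by positivity, ?_⟩
  intro P κ V s o hV ho hos hsP hsN
  have hW0 : 0 ≤ W := by
    refine le_trans ?_ hV.wt
    positivity
  rw [abs_of_nonneg hW0]
  obtain ⟨Cq, G, hCG, hexp⟩ := hEXQ W P κ V s o hV hos hsN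
  let PQ : Finset (Fin 4 → ℕ) := Fintype.piFinset fun _ : Fin 4 => V.Q
  let Sq : (Fin 4 → ℕ) → ℂ := fun q => ∑ x ∈ range (V.N - s),
    (∏ j, DD (q j) (V.a + x + o j)) *
      (ee ((V.α (q 0) - V.α (q 1) - V.α (q 2) + V.α (q 3)) * ((V.a + x : ℕ) : ℝ)) *
        G q (V.a + x))
  have hκ := hV.k0
  have hP0 : (0 : ℝ) < P := by exact_mod_cast hV.P1
  have hmem : ∀ q ∈ PQ, ∀ j, q j ∈ V.Q := fun q hq j => Fintype.mem_piFinset.1 hq j
  -- the trivial bound
  have htriv : ∀ q ∈ PQ, ‖Sq q‖ ≤ 32 * V.N := by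
    intro q hq
    have h1 : ‖Sq q‖ ≤ ∑ x ∈ range (V.N - s), ∏ j, MD (q j) (V.a + x + o j) := by
      refine (norm_sum_le _ _).trans (Finset.sum_le_sum fun x _ => ?_)
      rw [norm_mul, norm_mul, norm_ee', one_mul, norm_prod]
      have h2 : ‖G q (V.a + x)‖ ≤ 1 := (hCG q hq).2.1 _
      have h3 : ∏ j, ‖DD (q j) (V.a + x + o j)‖ ≤ ∏ j, MD (q j) (V.a + x + o j) :=
        Finset.prod_le_prod (fun j _ => norm_nonneg _) fun j _ => norm_DD _ _
      have h4 : 0 ≤ ∏ j, MD (q j) (V.a + x + o j) :=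
        Finset.prod_nonneg fun j _ => MD_nonneg _ _
      calc (∏ j, ‖DD (q j) (V.a + x + o j)‖) * ‖G q (V.a + x)‖
          ≤ (∏ j, MD (q j) (V.a + x + o j)) * 1 :=
            mul_le_mul h3 h2 (norm_nonneg _) h4
        _ = _ := mul_one _
    refine h1.trans ?_
    have h5 : ∑ x ∈ range (V.N - s), ∏ j, MD (q j) (V.a + x + o j) ≤
        ∑ x ∈ range V.N, ∏ j, MD (q j) (V.a + x + o j) := by
      refine Finset.sum_le_sum_of_subset_of_nonneg ?_ fun x _ _ =>
        Finset.prod_nonneg fun j _ => MD_nonneg _ _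
      exact Finset.range_mono (Nat.sub_le _ _)
    refine h5.trans ?_
    exact hCR1 q o P V.a V.N (fun j => hV.pr _ (hmem q hq j)) (fun j => hV.lo _ (hmem q hq j))
      (fun j => hV.up _ (hmem q hq j)) ho fun j => (hos j).trans_le hsP
  have hgood : ∀ q ∈ PQ, Function.Injective q → ¬ Bad V.N κ V.α q →
      ‖Sq q‖ ≤ 100 * (κ * V.N) := by
    intro q hq hi hb
    exact hPR4 V.N V.a (V.N - s) κ V.α q o (G q) (fun j => hV.pr _ (hmem q hq j))
      (fun j => hV.up _ (hmem q hq j)) hi hV.k0 hV.k1 hV.k2 hb (hCG q hq).2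
  let A : (Fin 4 → ℕ) → ℝ := fun q => ∏ j, 1 / (q j : ℝ)
  have hA0 : ∀ q, 0 ≤ A q := fun q => Finset.prod_nonneg fun j _ => by positivity
  have hsum : ∑ x ∈ range (V.N - s), V.om (V.a + x + o 0) *
      starRingEnd ℂ (V.om (V.a + x + o 1)) *
      (starRingEnd ℂ (V.om (V.a + x + o 2)) * V.om (V.a + x + o 3)) =
      ∑ q ∈ PQ, (∏ j, 1 / (q j : ℂ)) * Cq q * Sq q := by
    rw [Finset.sum_congr rfl fun x _ => hexp x, Finset.sum_comm]
    refine Finset.sum_congr rfl fun q _ => ?_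
    rw [← Finset.mul_sum]
  rw [hsum]
  have hterm : ∀ q ∈ PQ, ‖(∏ j, 1 / (q j : ℂ)) * Cq q * Sq q‖ ≤
      81 * (100 * (κ * V.N) * A q +
        ((if Function.Injective q ∧ Bad V.N κ V.α q then A q else 0) * (32 * V.N) +
        (if ¬ Function.Injective q then A q else 0) * (32 * V.N))) := by
    intro q hq
    have h1 : ‖(∏ j, 1 / (q j : ℂ))‖ = A q := by
      rw [norm_prod]
      refine Finset.prod_congr rfl fun j _ => ?_
      rw [norm_div, norm_one, Complex.norm_natCast]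
    have h2 := (hCG q hq).1
    rw [norm_mul, norm_mul, h1]
    have h3 : ‖Sq q‖ * A q ≤ 100 * (κ * V.N) * A q +
        ((if Function.Injective q ∧ Bad V.N κ V.α q then A q else 0) * (32 * V.N) +
        (if ¬ Function.Injective q then A q else 0) * (32 * V.N)) := by
      have hN0 : (0 : ℝ) ≤ V.N := Nat.cast_nonneg _
      have hb0 : 0 ≤ 100 * (κ * V.N) * A q := by
        have := hA0 q
        positivity
      by_cases hi : Function.Injective q
      · by_cases hb : Bad V.N κ V.α q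
        · rw [if_pos ⟨hi, hb⟩, if_neg (not_not.2 hi)]
          have := mul_le_mul_of_nonneg_right (htriv q hq) (hA0 q)
          linarith
        · rw [if_neg (fun h => hb h.2), if_neg (not_not.2 hi)]
          have := mul_le_mul_of_nonneg_right (hgood q hq hi hb) (hA0 q)
          linarith
      · rw [if_neg (fun h => hi h.1), if_pos hi]
        have := mul_le_mul_of_nonneg_right (htriv q hq) (hA0 q)
        linarith
    have h4 : 0 ≤ ‖Sq q‖ * A q := mul_nonneg (norm_nonneg _) (hA0 q)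
    calc A q * ‖Cq q‖ * ‖Sq q‖ = ‖Cq q‖ * (‖Sq q‖ * A q) := by ring
      _ ≤ 81 * (‖Sq q‖ * A q) := mul_le_mul_of_nonneg_right h2 h4
      _ ≤ _ := mul_le_mul_of_nonneg_left h3 (by norm_num)
  refine (norm_sum_le _ _).trans ((Finset.sum_le_sum hterm).trans ?_)
  rw [← Finset.mul_sum, Finset.sum_add_distrib, Finset.sum_add_distrib, ← Finset.mul_sum,
    ← Finset.sum_mul, ← Finset.sum_mul, ← Finset.sum_filter, ← Finset.sum_filter]
  have e1 : ∑ q ∈ PQ, A q ≤ W ^ 4 := by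
    have h1 : ∑ q ∈ PQ, A q = ∏ _j : Fin 4, ∑ p ∈ V.Q, 1 / (p : ℝ) :=
      (Finset.prod_univ_sum (fun _ : Fin 4 => V.Q) fun _ p => 1 / (p : ℝ)).symm
    rw [h1, Finset.prod_const, Finset.card_univ, Fintype.card_fin]
    refine pow_le_pow_left₀ ?_ hV.wt 4
    positivity
  have e2 : ∑ q ∈ PQ.filter (fun q => Function.Injective q ∧ Bad V.N κ V.α q), A q ≤ κ := hV.nc
  have e3 : ∑ q ∈ PQ.filter (fun q => ¬ Function.Injective q), A q ≤ 6 * W ^ 3 / P :=
    hTUP V.Q W P hV.lo hV.P1 hV.wt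
  have hN0 : (0 : ℝ) ≤ V.N := Nat.cast_nonneg _
  have f1 : 100 * (κ * V.N) * ∑ q ∈ PQ, A q ≤ 100 * (κ * V.N) * W ^ 4 :=
    mul_le_mul_of_nonneg_left e1 (by positivity)
  have f2 := mul_le_mul_of_nonneg_right e2 (by positivity : (0 : ℝ) ≤ 32 * V.N)
  have f3 := mul_le_mul_of_nonneg_right e3 (by positivity : (0 : ℝ) ≤ 32 * V.N)
  have g1 : (0 : ℝ) ≤ 1 / P := by positivity
  have g2 : 0 ≤ 100 * W ^ 4 * (1 / P) * V.N := by positivity
  have g3 : 0 ≤ 32 * (1 / (P : ℝ)) * V.N := by positivity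
  have g4 : 0 ≤ 32 * (6 * W ^ 3) * κ * V.N := by positivity
  have g5 : 6 * W ^ 3 / P * (32 * V.N) = 32 * (6 * W ^ 3) * (1 / P) * V.N := by ring
  rw [g5] at f3
  calc _ ≤ 81 * (100 * (κ * V.N) * W ^ 4 + (κ * (32 * V.N) +
        32 * (6 * W ^ 3) * (1 / P) * V.N)) :=
        mul_le_mul_of_nonneg_left (add_le_add f1 (add_le_add f2 f3)) (by norm_num)
    _ ≤ 81 * (100 * W ^ 4 + 32 + 32 * (6 * W ^ 3)) * (κ + 1 / P) * V.N := by linarith

end Pool.Agent.H36.BS
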